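import Pool.Agent.W738.CP.Stms

/-!
Project CP (helper738), part CV: change of variables from the disc to the strip.
-/

set_option autoImplicit false

open MeasureTheory Set Filter Topology

namespace Pool.Agent.W991.CP.CV

open Pool.Agent.W738.CP

/-- the strip -/
def St : Set ℂ := {ζ | ζ.im ∈ Ioo 0 Real.pi}

lemma measurableSet_St : MeasurableSet St :=
  (isOpen_Ioo.preimage Complex.continuous_im).measurableSet

/-- the conformal map -/
noncomputable def f (ζ : ℂ) : ℂ := (Complex.exp ζ - Complex.I) / (Complex.exp ζ + Complex.I)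

/-- its derivative -/
noncomputable def f' (ζ : ℂ) : ℂ :=
  2 * Complex.I * Complex.exp ζ / (Complex.exp ζ + Complex.I) ^ 2

lemma Z_eq (ζ : ℂ) : Z ζ.re ζ.im = f ζ := by
  rw [Z, f, Complex.re_add_im]

lemma Z_eq' (t s : ℝ) : Z t s = f (t + s * Complex.I) := rfl

lemma exp_im_pos {ζ : ℂ} (h : ζ ∈ St) : 0 < (Complex.exp ζ).im := by
  rw [Complex.exp_im]
  exact mul_pos (Real.exp_pos _) (Real.sin_pos_of_mem_Ioo h)

lemma ne_of_im {w : ℂ} (h : 0 < w.im) : w + Complex.I ≠ 0 := by
  intro h0
  have := congrArg Complex.im h0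
  simp at this
  linarith

lemma normSq_add_I (ζ : ℂ) : Complex.normSq (Complex.exp ζ + Complex.I) =
    Real.exp ζ.re ^ 2 + 2 * Real.exp ζ.re * Real.sin ζ.im + 1 := by
  rw [Complex.normSq_apply]
  simp only [Complex.add_re, Complex.add_im, Complex.I_re, Complex.I_im, Complex.exp_re,
    Complex.exp_im, add_zero]
  have := Real.sin_sq_add_cos_sq ζ.im
  nlinarith [this]

lemma normSq_f' (ζ : ℂ) : Complex.normSq (f' ζ) = J ζ.re ζ.im := by
  rw [f', J, map_div₀, map_pow, normSq_add_I, map_mul, map_mul, Complex.normSq_I]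
  congr 1
  rw [Complex.normSq_eq_norm_sq (Complex.exp ζ), Complex.norm_exp]
  have : Complex.normSq 2 = 4 := by
    rw [Complex.normSq_apply]; norm_num
  rw [this]
  ring

lemma hasDerivAt_f {ζ : ℂ} (h : Complex.exp ζ + Complex.I ≠ 0) : HasDerivAt f (f' ζ) ζ := by
  have h1 := ((Complex.hasDerivAt_exp ζ).sub_const Complex.I).div
    ((Complex.hasDerivAt_exp ζ).add_const Complex.I) h
  have h2 : f' ζ = (Complex.exp ζ * (Complex.exp ζ + Complex.I) -
      (Complex.exp ζ - Complex.I) * Complex.exp ζ) / (Complex.exp ζ + Complex.I) ^ 2 := by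
    rw [f']
    congr 1
    ring
  rw [h2]
  exact h1

lemma det_smul_one (c : ℂ) : (c • (1 : ℂ →L[ℝ] ℂ)).det = Complex.normSq c := by
  rw [← Algebra.norm_complex_apply, Algebra.norm_apply, ContinuousLinearMap.det]
  congr 1

lemma fderiv_f {ζ : ℂ} (h : ζ ∈ St) :
    HasFDerivWithinAt f (f' ζ • (1 : ℂ →L[ℝ] ℂ)) St ζ :=
  (hasDerivAt_f (ne_of_im (exp_im_pos h))).complexToReal_fderiv.hasFDerivWithinAt

lemma injOn_f : InjOn f St := by
  intro x hx y hy h
  have h1 := ne_of_im (exp_im_pos hx)
  have h2 := ne_of_im (exp_im_pos hy)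
  rw [f, f, div_eq_div_iff h1 h2] at h
  have h3 : Complex.exp x = Complex.exp y := by
    have h4 : 2 * Complex.I * (Complex.exp x - Complex.exp y) = 0 := by linear_combination h
    have h5 : (2 * Complex.I : ℂ) ≠ 0 := by simp
    exact sub_eq_zero.mp ((mul_eq_zero.mp h4).resolve_left h5)
  have hpi := Real.pi_pos
  exact Complex.exp_inj_of_neg_pi_lt_of_le_pi (by linarith [hx.1]) hx.2.le (by linarith [hy.1])
    hy.2.le h3

lemma image_f : f '' St = Metric.ball (0 : ℂ) 1 := by
  ext z
  rw [Metric.mem_ball, dist_zero_right]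
  constructor
  · rintro ⟨ζ, hζ, rfl⟩
    have h1 := exp_im_pos hζ
    have h2 := ne_of_im h1
    rw [f, norm_div, div_lt_one (norm_pos_iff.mpr h2)]
    set w := Complex.exp ζ
    rw [Complex.norm_def, Complex.norm_def]
    apply Real.sqrt_lt_sqrt (Complex.normSq_nonneg _)
    rw [Complex.normSq_apply, Complex.normSq_apply]
    simp only [Complex.sub_re, Complex.sub_im, Complex.add_re, Complex.add_im, Complex.I_re,
      Complex.I_im]
    nlinarith
  · intro hz
    have h1 : (1 : ℂ) - z ≠ 0 := by
      intro h
      have : z = 1 := (sub_eq_zero.mp h).symm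
      rw [this, norm_one] at hz
      exact lt_irrefl _ hz
    set w : ℂ := Complex.I * (1 + z) / (1 - z) with hw
    have hwim : 0 < w.im := by
      have h2 : w.im = (1 - Complex.normSq z) / Complex.normSq (1 - z) := by
        rw [hw, Complex.div_im]
        have h3 : Complex.normSq (1 - z) ≠ 0 := by
          rw [Ne, Complex.normSq_eq_zero]
          exact h1
        simp only [Complex.mul_re, Complex.mul_im, Complex.I_re, Complex.I_im, Complex.add_re,
          Complex.add_im, Complex.sub_re, Complex.sub_im, Complex.one_re, Complex.one_im]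
        rw [Complex.normSq_apply z]
        field_simp
        ring
      rw [h2]
      apply div_pos
      · rw [Complex.normSq_eq_norm_sq]
        nlinarith [norm_nonneg z]
      · exact Complex.normSq_pos.mpr h1
    have hw0 : w ≠ 0 := by
      intro h
      rw [h] at hwim
      simp at hwim
    refine ⟨Complex.log w, ?_, ?_⟩
    · change (Complex.log w).im ∈ Ioo 0 Real.pi
      rw [Complex.log_im]
      constructor
      · rcases (Complex.arg_nonneg_iff.mpr hwim.le).eq_or_lt with h | h
        · have := Complex.arg_eq_zero_iff.mp h.symm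
          rw [this.2] at hwim
          exact absurd hwim (lt_irrefl _)
        · exact h
      · rw [Complex.arg_lt_pi_iff]
        exact Or.inr hwim.ne'
    · rw [f, Complex.exp_log hw0, div_eq_iff (ne_of_im hwim), hw]
      field_simp
      ring

lemma mp : MeasurePreserving Complex.measurableEquivRealProd (volume : Measure ℂ) volume :=
  Complex.volume_preserving_equiv_real_prod

lemma preimage_eq : Complex.measurableEquivRealProd ⁻¹' (univ ×ˢ Ioo 0 Real.pi) = St := by
  ext ζ
  simp only [mem_preimage, mem_prod, mem_univ, true_and]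
  rfl

lemma integrand (F : ℂ → ℂ) (ζ : ℂ) : |(f' ζ • (1 : ℂ →L[ℝ] ℂ)).det| • F (f ζ) =
    (fun p : ℝ × ℝ => (J p.1 p.2 : ℂ) * F (Z p.1 p.2)) (Complex.measurableEquivRealProd ζ) := by
  rw [det_smul_one, abs_of_nonneg (Complex.normSq_nonneg _), normSq_f', Complex.real_smul]
  simp only
  rw [← Z_eq ζ]
  rfl

theorem cv : S_CV := by
  intro F
  constructor
  · rw [← image_f, integral_image_eq_integral_abs_det_fderiv_smul volume measurableSet_St
      (fun x hx => fderiv_f hx) injOn_f, ← mp.setIntegral_preimage_emb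
        Complex.measurableEquivRealProd.measurableEmbedding, preimage_eq]
    refine integral_congr_ae (Eventually.of_forall fun ζ => ?_)
    exact integrand F ζ
  · rw [← image_f, integrableOn_image_iff_integrableOn_abs_det_fderiv_smul volume
      measurableSet_St (fun x hx => fderiv_f hx) injOn_f,
      ← mp.integrableOn_comp_preimage Complex.measurableEquivRealProd.measurableEmbedding,
      preimage_eq]
    have : (fun ζ => |(f' ζ • (1 : ℂ →L[ℝ] ℂ)).det| • F (f ζ)) =
        (fun p : ℝ × ℝ => (J p.1 p.2 : ℂ) * F (Z p.1 p.2)) ∘ Complex.measurableEquivRealProd := by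
      funext ζ
      exact integrand F ζ
    rw [this]

theorem cv_ae : S_CVae := by
  intro P hP
  rw [← image_f] at hP
  rw [ae_iff] at hP
  set N : Set ℂ := toMeasurable (volume.restrict (f '' St)) {z | ¬ P z} with hN
  have hN0 : volume.restrict (f '' St) N = 0 := by
    rw [hN, measure_toMeasurable]
    exact hP
  have hNm : MeasurableSet N := measurableSet_toMeasurable _ _
  have hsub : {z | ¬ P z} ⊆ N := subset_toMeasurable _ _
  have h1 : ∫⁻ z in f '' St, N.indicator 1 z ∂volume = 0 := by
    rw [lintegral_indicator_one hNm]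
    exact hN0
  rw [lintegral_image_eq_lintegral_abs_det_fderiv_mul volume measurableSet_St
    (fun x hx => fderiv_f hx) injOn_f] at h1
  have hfm : Measurable f := by
    unfold f
    exact (Complex.measurable_exp.sub_const _).div (Complex.measurable_exp.add_const _)
  have hf'm : Measurable f' := by
    unfold f'
    exact (measurable_const.mul Complex.measurable_exp).div
      ((Complex.measurable_exp.add_const _).pow_const 2)
  have hmeas : Measurable (fun x => ENNReal.ofReal |(f' x • (1 : ℂ →L[ℝ] ℂ)).det| *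
      N.indicator 1 (f x)) := by
    refine Measurable.mul ?_ ((measurable_one.indicator hNm).comp hfm)
    have : (fun x => ENNReal.ofReal |(f' x • (1 : ℂ →L[ℝ] ℂ)).det|) =
        fun x => ENNReal.ofReal (Complex.normSq (f' x)) := by
      funext x
      rw [det_smul_one, abs_of_nonneg (Complex.normSq_nonneg _)]
    rw [this]
    exact ((Complex.continuous_normSq.measurable.comp hf'm)).ennreal_ofReal
  rw [lintegral_eq_zero_iff hmeas, Filter.EventuallyEq, ae_restrict_iff' measurableSet_St] at h1
  have h2 : ∀ᵐ ζ ∂(volume : Measure ℂ), ζ ∈ St → P (f ζ) := by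
    filter_upwards [h1] with ζ hζ hS
    have h3 := hζ hS
    by_contra hcon
    have h4 : f ζ ∈ N := hsub hcon
    simp only [Pi.zero_apply, mul_eq_zero, indicator_of_mem h4, Pi.one_apply, one_ne_zero,
      or_false, ENNReal.ofReal_eq_zero] at h3
    rw [det_smul_one, abs_of_nonneg (Complex.normSq_nonneg _)] at h3
    have h5 : f' ζ ≠ 0 := by
      rw [f']
      refine div_ne_zero ?_ (pow_ne_zero 2 (ne_of_im (exp_im_pos hS)))
      simp
    have h6 := Complex.normSq_pos.mpr h5
    linarith
  have h3 := (mp.symm).quasiMeasurePreserving.ae h2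
  rw [ae_restrict_iff' (MeasurableSet.univ.prod measurableSet_Ioo)]
  filter_upwards [h3] with p hp hp2
  have h4 : Complex.measurableEquivRealProd.symm p = (p.1 : ℂ) + p.2 * Complex.I := by
    apply Complex.ext <;> simp
  rw [h4] at hp
  rw [Z_eq']
  apply hp
  change ((p.1 : ℂ) + p.2 * Complex.I).im ∈ Ioo 0 Real.pi
  simp only [Complex.add_im, Complex.ofReal_im, Complex.mul_im, Complex.ofReal_re, Complex.I_im,
    mul_one, Complex.I_re, mul_zero, add_zero, zero_add]
  exact hp2.2

end Pool.Agent.W991.CP.CV
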