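import Pool.Agent.W738.CP.Stms
import Pool.Agent.W991.CP.CV

/-!
Project CP (helper738), part LAP: chain rule for the Laplacian, with bounds.
-/

set_option autoImplicit false

open MeasureTheory Set Filter Topology InnerProductSpace Laplacian
open scoped ContDiff

namespace Pool.Agent.W991.CP.Lap

open Pool.Agent.W738.CP
open Pool.Agent.W991.CP.CV (f f' Z_eq Z_eq' normSq_add_I normSq_f' hasDerivAt_f)

/-- the second derivative of `f` -/
noncomputable def f'' (ζ : ℂ) : ℂ :=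
  2 * Complex.I * Complex.exp ζ * (Complex.I - Complex.exp ζ) / (Complex.exp ζ + Complex.I) ^ 3

lemma hasDerivAt_f' {ζ : ℂ} (h : Complex.exp ζ + Complex.I ≠ 0) : HasDerivAt f' (f'' ζ) ζ := by
  have h1 := (((Complex.hasDerivAt_exp ζ).const_mul (2 * Complex.I))).div
    (((Complex.hasDerivAt_exp ζ).add_const Complex.I).pow 2) (pow_ne_zero 2 h)
  have h2 : f'' ζ = (2 * Complex.I * Complex.exp ζ * (Complex.exp ζ + Complex.I) ^ 2 -
      2 * Complex.I * Complex.exp ζ * ((2 : ℕ) * (Complex.exp ζ + Complex.I) ^ (2 - 1) *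
        Complex.exp ζ)) / ((Complex.exp ζ + Complex.I) ^ 2) ^ 2 := by
    rw [f'']
    push_cast
    field_simp
    ring
  rw [h2]
  exact h1

/-- the closed strip -/
def Cs : Set ℂ := {ζ | 0 ≤ ζ.im ∧ ζ.im ≤ Real.pi}

lemma normSq_ge {ζ : ℂ} (h : ζ ∈ Cs) :
    Real.exp ζ.re ^ 2 + 1 ≤ Complex.normSq (Complex.exp ζ + Complex.I) := by
  rw [normSq_add_I]
  have h1 : 0 ≤ Real.sin ζ.im := Real.sin_nonneg_of_nonneg_of_le_pi h.1 h.2
  have h2 := Real.exp_pos ζ.re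
  have h3 : 0 ≤ Real.exp ζ.re * Real.sin ζ.im := mul_nonneg h2.le h1
  linarith

lemma ne_Cs {ζ : ℂ} (h : ζ ∈ Cs) : Complex.exp ζ + Complex.I ≠ 0 := by
  intro h0
  have h1 := normSq_ge h
  rw [h0, map_zero] at h1
  nlinarith [Real.exp_pos ζ.re]

lemma norm_f'_le {ζ : ℂ} (h : ζ ∈ Cs) : ‖f' ζ‖ ≤ 1 := by
  have h1 := normSq_ge h
  rw [f', norm_div, norm_mul, norm_mul, norm_pow, ← Complex.normSq_eq_norm_sq, Complex.norm_exp,
    Complex.norm_I]
  have h2 := Real.exp_pos ζ.re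
  have h3 : ‖(2 : ℂ)‖ = 2 := by simp
  rw [h3, div_le_one (by nlinarith)]
  nlinarith [sq_nonneg (Real.exp ζ.re - 1)]

lemma norm_sub_le_add {ζ : ℂ} (h : ζ ∈ Cs) :
    ‖Complex.exp ζ - Complex.I‖ ≤ ‖Complex.exp ζ + Complex.I‖ := by
  have h1 : 0 ≤ Real.sin ζ.im := Real.sin_nonneg_of_nonneg_of_le_pi h.1 h.2
  have h2 : 0 ≤ (Complex.exp ζ).im := by
    rw [Complex.exp_im]
    exact mul_nonneg (Real.exp_pos _).le h1
  rw [Complex.norm_def, Complex.norm_def]
  apply Real.sqrt_le_sqrt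
  rw [Complex.normSq_apply, Complex.normSq_apply]
  simp only [Complex.sub_re, Complex.sub_im, Complex.add_re, Complex.add_im, Complex.I_re,
    Complex.I_im]
  nlinarith

lemma norm_f_le {ζ : ℂ} (h : ζ ∈ Cs) : ‖f ζ‖ ≤ 1 := by
  rw [f, norm_div, div_le_one (norm_pos_iff.mpr (ne_Cs h))]
  exact norm_sub_le_add h

lemma norm_f''_le {ζ : ℂ} (h : ζ ∈ Cs) : ‖f'' ζ‖ ≤ 1 := by
  have h1 : f'' ζ = f' ζ * (-(f ζ)) := by
    rw [f'', f', f]
    have := ne_Cs h
    field_simp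
    ring
  rw [h1, norm_mul, norm_neg]
  calc ‖f' ζ‖ * ‖f ζ‖ ≤ 1 * 1 :=
        mul_le_mul (norm_f'_le h) (norm_f_le h) (norm_nonneg _) zero_le_one
    _ = 1 := one_mul 1

section

variable {ψ : ℂ → ℝ} (hψ : ContDiff ℝ ∞ ψ)

include hψ

lemma diff1 (z : ℂ) : HasFDerivAt ψ (fderiv ℝ ψ z) z :=
  (hψ.differentiable (by simp)).differentiableAt.hasFDerivAt

lemma contDiff_fderiv : ContDiff ℝ ∞ (fderiv ℝ ψ) := hψ.fderiv_right (m := ∞) (by simp)

lemma diff2 (z : ℂ) : HasFDerivAt (fderiv ℝ ψ) (fderiv ℝ (fderiv ℝ ψ) z) z :=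
  ((contDiff_fderiv hψ).differentiable (by simp)).differentiableAt.hasFDerivAt

/-- first derivative along a line -/
lemma line1 {ζ : ℝ → ℂ} {c : ℂ} {t : ℝ} (hζ : HasDerivAt ζ c t)
    (h : Complex.exp (ζ t) + Complex.I ≠ 0) :
    HasDerivAt (fun τ => ψ (f (ζ τ))) (fderiv ℝ ψ (f (ζ t)) (f' (ζ t) * c)) t := by
  have h1 : HasDerivAt (fun τ => f (ζ τ)) (f' (ζ t) * c) t := (hasDerivAt_f h).comp t hζ
  exact (diff1 hψ (f (ζ t))).comp_hasDerivAt t h1

/-- second derivative along a line -/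
lemma line2 {ζ : ℝ → ℂ} {c : ℂ} {t : ℝ} (hζ : HasDerivAt ζ c t)
    (h : Complex.exp (ζ t) + Complex.I ≠ 0) :
    HasDerivAt (fun τ => fderiv ℝ ψ (f (ζ τ)) (f' (ζ τ) * c))
      (fderiv ℝ (fderiv ℝ ψ) (f (ζ t)) (f' (ζ t) * c) (f' (ζ t) * c) +
        fderiv ℝ ψ (f (ζ t)) (f'' (ζ t) * c * c)) t := by
  have h1 : HasDerivAt (fun τ => f (ζ τ)) (f' (ζ t) * c) t := (hasDerivAt_f h).comp t hζ
  have h2 : HasDerivAt (fun τ => fderiv ℝ ψ (f (ζ τ)))
      (fderiv ℝ (fderiv ℝ ψ) (f (ζ t)) (f' (ζ t) * c)) t :=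
    (diff2 hψ (f (ζ t))).comp_hasDerivAt t h1
  have h3 : HasDerivAt (fun τ => f' (ζ τ) * c) (f'' (ζ t) * c * c) t :=
    ((hasDerivAt_f' h).comp t hζ).mul_const c
  exact h2.clm_apply h3

end

/-- the algebra behind the Laplacian -/
lemma bilin (B : ℂ →L[ℝ] ℂ →L[ℝ] ℝ) (z : ℂ) :
    B z z + B (z * Complex.I) (z * Complex.I) =
      Complex.normSq z * (B 1 1 + B Complex.I Complex.I) := by
  have h1 : z = z.re • (1 : ℂ) + z.im • Complex.I := by
    apply Complex.ext <;> simp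
  have h2 : z * Complex.I = (-z.im) • (1 : ℂ) + z.re • Complex.I := by
    apply Complex.ext <;> simp
  rw [h2]
  conv_lhs => rw [h1]
  simp only [map_add, map_smul, _root_.add_apply, _root_.smul_apply,
    smul_eq_mul, Complex.normSq_apply]
  simp only [Complex.add_re, Complex.smul_re, Complex.one_re, smul_eq_mul, mul_one, Complex.I_re,
    mul_zero, add_zero, Complex.add_im, Complex.smul_im, Complex.one_im, Complex.I_im, zero_add]
  ring

theorem lap : S_Lap := by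
  intro ψ hψ
  set ζ : ℝ → ℝ → ℂ := fun t s => (t : ℂ) + s * Complex.I with hζ
  have him : ∀ t s, (ζ t s).im = s := by intro t s; simp [hζ]
  have hre : ∀ t s, (ζ t s).re = t := by intro t s; simp [hζ]
  have hZ : ∀ t s, Z t s = f (ζ t s) := fun t s => rfl
  have hmem : ∀ t s, 0 ≤ s → s ≤ Real.pi → ζ t s ∈ Cs := by
    intro t s h1 h2
    exact ⟨by rw [him]; exact h1, by rw [him]; exact h2⟩
  have hdt : ∀ t s, HasDerivAt (fun τ : ℝ => ζ τ s) 1 t := by
    intro t s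
    exact (Complex.ofRealCLM.hasDerivAt (x := t)).add_const _
  have hds : ∀ t s, HasDerivAt (fun σ : ℝ => ζ t σ) Complex.I s := by
    intro t s
    have := ((Complex.ofRealCLM.hasDerivAt (x := s)).mul_const Complex.I).const_add (t : ℂ)
    exact this.congr_deriv (by simp)
  have hψ2 : Continuous (fderiv ℝ (fderiv ℝ ψ)) :=
    (contDiff_fderiv hψ).continuous_fderiv (by simp)
  have hζc : Continuous (fun p : ℝ × ℝ => ζ p.1 p.2) := by
    rw [hζ]; fun_prop
  have hexp : Continuous (fun p : ℝ × ℝ => Complex.exp (ζ p.1 p.2)) := Complex.continuous_exp.comp hζc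
  have hneD : ∀ p ∈ (univ ×ˢ Icc 0 Real.pi : Set (ℝ × ℝ)),
      Complex.exp (ζ p.1 p.2) + Complex.I ≠ 0 := fun p hp =>
    ne_Cs (hmem p.1 p.2 hp.2.1 hp.2.2)
  have hfc : ContinuousOn (fun p : ℝ × ℝ => f (ζ p.1 p.2)) (univ ×ˢ Icc 0 Real.pi) := by
    unfold f
    exact (hexp.sub continuous_const).continuousOn.div (hexp.add continuous_const).continuousOn
      hneD
  have hf'c : ContinuousOn (fun p : ℝ × ℝ => f' (ζ p.1 p.2)) (univ ×ˢ Icc 0 Real.pi) := by
    unfold f'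
    exact (continuous_const.mul hexp).continuousOn.div
      ((hexp.add continuous_const).pow 2).continuousOn (fun p hp => pow_ne_zero 2 (hneD p hp))
  have hf''c : ContinuousOn (fun p : ℝ × ℝ => f'' (ζ p.1 p.2)) (univ ×ˢ Icc 0 Real.pi) := by
    unfold f''
    exact ((continuous_const.mul hexp).mul (continuous_const.sub hexp)).continuousOn.div
      ((hexp.add continuous_const).pow 3).continuousOn (fun p hp => pow_ne_zero 3 (hneD p hp))
  have hC1 : ∀ c : ℂ, ContinuousOn (fun p : ℝ × ℝ => fderiv ℝ ψ (f (ζ p.1 p.2))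
      (f' (ζ p.1 p.2) * c)) (univ ×ˢ Icc 0 Real.pi) := fun c =>
    ((contDiff_fderiv hψ).continuous.comp_continuousOn hfc).clm_apply
      (hf'c.mul continuousOn_const)
  have hC2 : ∀ c : ℂ, ContinuousOn (fun p : ℝ × ℝ =>
      fderiv ℝ (fderiv ℝ ψ) (f (ζ p.1 p.2)) (f' (ζ p.1 p.2) * c) (f' (ζ p.1 p.2) * c) +
        fderiv ℝ ψ (f (ζ p.1 p.2)) (f'' (ζ p.1 p.2) * c * c)) (univ ×ˢ Icc 0 Real.pi) := fun c =>
    (((hψ2.comp_continuousOn hfc).clm_apply (hf'c.mul continuousOn_const)).clm_apply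
      (hf'c.mul continuousOn_const)).add
      (((contDiff_fderiv hψ).continuous.comp_continuousOn hfc).clm_apply
        ((hf''c.mul continuousOn_const).mul continuousOn_const))
  refine ⟨fun t s => fderiv ℝ ψ (f (ζ t s)) (f' (ζ t s) * 1),
    fun t s => fderiv ℝ ψ (f (ζ t s)) (f' (ζ t s) * Complex.I),
    fun t s => fderiv ℝ (fderiv ℝ ψ) (f (ζ t s)) (f' (ζ t s) * 1) (f' (ζ t s) * 1) +
      fderiv ℝ ψ (f (ζ t s)) (f'' (ζ t s) * 1 * 1),
    fun t s => fderiv ℝ (fderiv ℝ ψ) (f (ζ t s)) (f' (ζ t s) * Complex.I)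
      (f' (ζ t s) * Complex.I) + fderiv ℝ ψ (f (ζ t s)) (f'' (ζ t s) * Complex.I * Complex.I),
    ?_, ?_, ?_, ?_, ?_, ?_⟩
  · intro t s h0 hπ
    have hne := ne_Cs (hmem t s h0 hπ)
    refine ⟨line1 hψ (hdt t s) hne, line2 hψ (hdt t s) hne, line1 hψ (hds t s) hne,
      line2 hψ (hds t s) hne, ?_⟩
    have h1 : J t s = Complex.normSq (f' (ζ t s)) := by rw [normSq_f', hre, him]
    have h2 : (Δ ψ) (Z t s) = fderiv ℝ (fderiv ℝ ψ) (f (ζ t s)) 1 1 +
        fderiv ℝ (fderiv ℝ ψ) (f (ζ t s)) Complex.I Complex.I := by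
      rw [laplacian_eq_iteratedFDeriv_complexPlane]
      simp only [iteratedFDeriv_two_apply]
      rfl
    have h3 := bilin (fderiv ℝ (fderiv ℝ ψ) (f (ζ t s))) (f' (ζ t s))
    have h4 : f'' (ζ t s) * Complex.I * Complex.I = -f'' (ζ t s) := by
      rw [mul_assoc, Complex.I_mul_I]; ring
    beta_reduce
    rw [h1, h2, ← h3, h4, map_neg]
    simp only [mul_one]
    ring
  -- continuity
  · exact hC1 1
  · exact hC1 Complex.I
  · exact hC2 1
  · exact hC2 Complex.I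
  · obtain ⟨M0, hM0⟩ := (isCompact_closedBall (0 : ℂ) 1).exists_bound_of_continuousOn
      hψ.continuous.continuousOn
    obtain ⟨M1, hM1⟩ := (isCompact_closedBall (0 : ℂ) 1).exists_bound_of_continuousOn
      (contDiff_fderiv hψ).continuous.continuousOn
    have hn : Continuous (fun z => ‖fderiv ℝ (fderiv ℝ ψ) z‖)  :=
      Continuous.norm (E := ℂ →L[ℝ] (ℂ →L[ℝ] ℝ)) hψ2
    obtain ⟨M2, hM2n⟩ := (isCompact_closedBall (0 : ℂ) 1).exists_bound_of_continuousOn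
      hn.continuousOn
    have hM2 : ∀ z ∈ Metric.closedBall (0 : ℂ) 1, ‖fderiv ℝ (fderiv ℝ ψ) z‖ ≤ M2 :=
      fun z hz => (Real.le_norm_self _).trans (hM2n z hz)
    have h00 : (0 : ℂ) ∈ Metric.closedBall (0 : ℂ) 1 := Metric.mem_closedBall_self zero_le_one
    have hM0' : 0 ≤ M0 := (norm_nonneg _).trans (hM0 0 h00)
    have hM1' : 0 ≤ M1 := (norm_nonneg _).trans (hM1 0 h00)
    have hM2' : 0 ≤ M2 :=
      (norm_nonneg (E := ℂ →L[ℝ] (ℂ →L[ℝ] ℝ)) (fderiv ℝ (fderiv ℝ ψ) 0)).trans (hM2 0 h00)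
    refine ⟨M0 + M1 + M2, fun t s h0 hπ => ?_⟩
    have hm := hmem t s h0 hπ
    have hb : f (ζ t s) ∈ Metric.closedBall (0 : ℂ) 1 := by
      rw [Metric.mem_closedBall, dist_zero_right]
      exact norm_f_le hm
    have hb1 : ∀ c : ℂ, ‖c‖ = 1 → |fderiv ℝ ψ (f (ζ t s)) (f' (ζ t s) * c)| ≤ M1 := by
      intro c hc
      rw [← Real.norm_eq_abs]
      calc ‖fderiv ℝ ψ (f (ζ t s)) (f' (ζ t s) * c)‖
          ≤ ‖fderiv ℝ ψ (f (ζ t s))‖ * ‖f' (ζ t s) * c‖ := ContinuousLinearMap.le_opNorm _ _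
        _ ≤ M1 * 1 := by
            refine mul_le_mul (hM1 _ hb) ?_ (norm_nonneg _) hM1'
            rw [norm_mul, hc, mul_one]
            exact norm_f'_le hm
        _ = M1 := mul_one _
    have hb2 : ∀ c : ℂ, ‖c‖ = 1 → |fderiv ℝ (fderiv ℝ ψ) (f (ζ t s)) (f' (ζ t s) * c)
        (f' (ζ t s) * c) + fderiv ℝ ψ (f (ζ t s)) (f'' (ζ t s) * c * c)| ≤ M2 + M1 := by
      intro c hc
      refine (abs_add_le _ _).trans (add_le_add ?_ ?_)
      · rw [← Real.norm_eq_abs]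
        have h1 : ‖f' (ζ t s) * c‖ ≤ 1 := by
          rw [norm_mul, hc, mul_one]
          exact norm_f'_le hm
        calc ‖fderiv ℝ (fderiv ℝ ψ) (f (ζ t s)) (f' (ζ t s) * c) (f' (ζ t s) * c)‖
            ≤ ‖fderiv ℝ (fderiv ℝ ψ) (f (ζ t s))‖ * ‖f' (ζ t s) * c‖ * ‖f' (ζ t s) * c‖ :=
              ContinuousLinearMap.le_opNorm₂ _ _ _
          _ ≤ M2 * 1 * 1 := by
              refine mul_le_mul (mul_le_mul (hM2 _ hb) h1 (norm_nonneg _) hM2') h1
                (norm_nonneg _) (by positivity)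
          _ = M2 := by ring
      · rw [← Real.norm_eq_abs]
        calc ‖fderiv ℝ ψ (f (ζ t s)) (f'' (ζ t s) * c * c)‖
            ≤ ‖fderiv ℝ ψ (f (ζ t s))‖ * ‖f'' (ζ t s) * c * c‖ :=
              ContinuousLinearMap.le_opNorm _ _
          _ ≤ M1 * 1 := by
              refine mul_le_mul (hM1 _ hb) ?_ (norm_nonneg _) hM1'
              rw [norm_mul, norm_mul, hc, mul_one, mul_one]
              exact norm_f''_le hm
          _ = M1 := mul_one _
    refine ⟨?_, ?_, ?_, ?_, ?_⟩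
    · have := hM0 _ hb
      rw [Real.norm_eq_abs] at this
      rw [hZ]
      linarith
    · have := hb1 1 norm_one
      beta_reduce
      linarith
    · have := hb1 Complex.I Complex.norm_I
      beta_reduce
      linarith
    · have := hb2 1 norm_one
      beta_reduce
      linarith
    · have := hb2 Complex.I Complex.norm_I
      beta_reduce
      linarith

end Pool.Agent.W991.CP.Lap
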