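import Pool.Agent.W738.CP.Stms

/-!
Project CP (helper738), part SINE: completeness of the sine system.
-/

set_option autoImplicit false

open MeasureTheory Set Filter Topology

namespace Pool.Agent.W991.CP.Sine

open Pool.Agent.W738.CP

theorem sine : S_Sine := by
  intro f hf hk
  have hpi := Real.pi_pos
  set g : ℝ → ℂ := indicator (Ioo 0 Real.pi) f with hg
  have hgL : MemLp g 2 volume := (memLp_indicator_iff_restrict measurableSet_Ioo).mpr hf
  set F : ℝ → ℂ := fun x => g x - g (-x) with hF
  have hgn : MemLp (fun x => g (-x)) 2 volume :=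
    hgL.comp_measurePreserving (Measure.measurePreserving_neg volume)
  have hFL : MemLp F 2 volume := hgL.sub hgn
  have hab : -Real.pi < Real.pi := by linarith
  -- integrability of `g`
  have hfi : IntegrableOn f (Ioo 0 Real.pi) volume := hf.integrable (by norm_num)
  have hgi : Integrable g volume := (integrable_indicator_iff measurableSet_Ioo).mpr hfi
  have hgni : Integrable (fun x => g (-x)) volume := hgi.comp_neg
  have hsupp : ∀ x, x ∉ Ioc (-Real.pi) Real.pi → F x = 0 := by
    intro x hx
    have h1 : x ∉ Ioo 0 Real.pi := fun h => hx ⟨by linarith [h.1], h.2.le⟩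
    have h2 : -x ∉ Ioo 0 Real.pi := fun h => hx ⟨by linarith [h.2], by linarith [h.1]⟩
    simp only [hF, hg, indicator_of_notMem h1, indicator_of_notMem h2, sub_zero]
  have hcoef : ∀ n : ℤ, fourierCoeffOn hab F n = 0 := by
    intro n
    rw [fourierCoeffOn_eq_integral]
    have hT : Real.pi - -Real.pi = 2 * Real.pi := by ring
    have h1 : ∫ x in (-Real.pi)..Real.pi,
        fourier (-n) (x : AddCircle (Real.pi - -Real.pi)) • F x =
        ∫ x : ℝ, Complex.exp (-(n : ℂ) * x * Complex.I) * F x := by
      rw [intervalIntegral.integral_of_le hab.le, ← integral_indicator measurableSet_Ioc]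
      refine integral_congr_ae (Eventually.of_forall fun x => ?_)
      simp only
      by_cases hx : x ∈ Ioc (-Real.pi) Real.pi
      · rw [indicator_of_mem hx, fourier_coe_apply, smul_eq_mul]
        congr 2
        push_cast
        have : (Real.pi : ℂ) ≠ 0 := by exact_mod_cast hpi.ne'
        field_simp
        ring
      · rw [indicator_of_notMem hx, hsupp x hx, mul_zero]
    have he : ∀ (s : ℝ) (x : ℝ), ‖Complex.exp ((s : ℂ) * x * Complex.I)‖ = 1 := by
      intro s x
      have : ((s : ℂ) * x * Complex.I) = ((s * x : ℝ) : ℂ) * Complex.I := by push_cast; ring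
      rw [this, Complex.norm_exp_ofReal_mul_I]
    have hc : ∀ s : ℝ, Continuous fun x : ℝ => Complex.exp ((s : ℂ) * x * Complex.I) := by
      intro s; fun_prop
    have hint : ∀ (s : ℝ) (h : ℝ → ℂ), Integrable h volume →
        Integrable (fun x : ℝ => Complex.exp ((s : ℂ) * x * Complex.I) * h x) volume := by
      intro s h hh
      refine hh.bdd_mul (c := 1) (hc s).aestronglyMeasurable (Eventually.of_forall fun x => ?_)
      exact (he s x).le
    have hcast : ∀ x : ℝ, Complex.exp (-(n : ℂ) * x * Complex.I) =
        Complex.exp (((-(n : ℝ) : ℝ) : ℂ) * x * Complex.I) := by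
      intro x; push_cast; rfl
    have hcast' : ∀ x : ℝ, Complex.exp ((n : ℂ) * x * Complex.I) =
        Complex.exp ((((n : ℝ) : ℝ) : ℂ) * x * Complex.I) := by
      intro x; push_cast; rfl
    have h2 : ∫ x : ℝ, Complex.exp (-(n : ℂ) * x * Complex.I) * F x =
        (∫ x : ℝ, Complex.exp (-(n : ℂ) * x * Complex.I) * g x) -
        ∫ x : ℝ, Complex.exp (-(n : ℂ) * x * Complex.I) * g (-x) := by
      rw [← integral_sub]
      · refine integral_congr_ae (Eventually.of_forall fun x => ?_)
        simp only [hF]
        ring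
      · simp only [hcast]
        exact hint _ g hgi
      · simp only [hcast]
        exact hint _ _ hgni
    have h3 : ∫ x : ℝ, Complex.exp (-(n : ℂ) * x * Complex.I) * g (-x) =
        ∫ x : ℝ, Complex.exp ((n : ℂ) * x * Complex.I) * g x := by
      rw [← integral_neg_eq_self (fun x : ℝ => Complex.exp ((n : ℂ) * x * Complex.I) * g x)]
      refine integral_congr_ae (Eventually.of_forall fun x => ?_)
      simp only
      congr 2
      push_cast
      ring
    have h4 : ∫ x : ℝ, Complex.exp (-(n : ℂ) * x * Complex.I) * F x =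
        ∫ x in Ioo 0 Real.pi, (-2 * Complex.I) * (f x * (Complex.sin ((n : ℂ) * x))) := by
      rw [h2, h3, ← integral_sub, ← integral_indicator measurableSet_Ioo]
      · refine integral_congr_ae (Eventually.of_forall fun x => ?_)
        simp only [hg]
        by_cases hx : x ∈ Ioo 0 Real.pi
        · rw [indicator_of_mem hx, indicator_of_mem hx, Complex.sin]
          have : -(n : ℂ) * x * Complex.I = -((n : ℂ) * x) * Complex.I := by ring
          rw [this]
          linear_combination (f x * (Complex.exp (-((n : ℂ) * x) * Complex.I) -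
            Complex.exp ((n : ℂ) * x * Complex.I))) * Complex.I_sq
        · rw [indicator_of_notMem hx, indicator_of_notMem hx]
          ring
      · simp only [hcast]
        exact hint _ g hgi
      · simp only [hcast']
        exact hint _ g hgi
    rw [h1, h4, integral_const_mul]
    have h5 : ∫ x in Ioo 0 Real.pi, f x * Complex.sin ((n : ℂ) * x) = 0 := by
      have key : ∀ m : ℕ, ∫ x in Ioo 0 Real.pi, f x * Complex.sin ((m : ℂ) * x) = 0 := by
        intro m
        rcases Nat.eq_zero_or_pos m with rfl | hm
        · simp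
        · rw [← hk m hm]
          refine integral_congr_ae (Eventually.of_forall fun x => ?_)
          simp only
          push_cast
          rfl
      obtain ⟨m, hm⟩ := Int.eq_nat_or_neg n
      rcases hm with rfl | rfl
      · rw [← key m]
        simp only [Int.cast_natCast]
      · have h6 : ∫ x in Ioo 0 Real.pi, f x * Complex.sin (((-(m : ℤ) : ℤ) : ℂ) * x) =
            - ∫ x in Ioo 0 Real.pi, f x * Complex.sin ((m : ℂ) * x) := by
          rw [← integral_neg]
          refine integral_congr_ae (Eventually.of_forall fun x => ?_)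
          simp only [Int.cast_neg, Int.cast_natCast, neg_mul, Complex.sin_neg, mul_neg]
        rw [h6, key m, neg_zero]
    rw [h5, mul_zero, smul_zero]
  have hsum := hasSum_sq_fourierCoeffOn hab (hFL.restrict _)
  simp only [hcoef, norm_zero] at hsum
  have h0 : (0 : ℝ) = (Real.pi - -Real.pi)⁻¹ • ∫ x in (-Real.pi)..Real.pi, ‖F x‖ ^ 2 := by
    have hz : HasSum (fun _ : ℤ => (0 : ℝ)) 0 := hasSum_zero
    have hsum' : HasSum (fun _ : ℤ => (0 : ℝ))
        ((Real.pi - -Real.pi)⁻¹ • ∫ x in (-Real.pi)..Real.pi, ‖F x‖ ^ 2) := by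
      simpa only [ne_eq, OfNat.ofNat_ne_zero, not_false_eq_true, zero_pow] using hsum
    exact hz.unique hsum'
  have h1 : ∫ x in (-Real.pi)..Real.pi, ‖F x‖ ^ 2 = 0 := by
    rw [smul_eq_mul] at h0
    have : (Real.pi - -Real.pi)⁻¹ ≠ 0 := inv_ne_zero (by linarith)
    exact (mul_eq_zero.mp h0.symm).resolve_left this
  rw [intervalIntegral.integral_of_le hab.le] at h1
  have hint2 : Integrable (fun x => ‖F x‖ ^ 2) (volume.restrict (Ioc (-Real.pi) Real.pi)) :=
    (memLp_two_iff_integrable_sq_norm (hFL.restrict _).1).mp (hFL.restrict _)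
  have h2 := (integral_eq_zero_iff_of_nonneg (fun x => by positivity) hint2).mp h1
  have h3 : ∀ᵐ x ∂(volume.restrict (Ioo 0 Real.pi)), ‖F x‖ ^ 2 = 0 := by
    have hsub : Ioo 0 Real.pi ⊆ Ioc (-Real.pi) Real.pi :=
      fun x hx => ⟨by linarith [hx.1], hx.2.le⟩
    exact ae_restrict_of_ae_restrict_of_subset hsub h2
  filter_upwards [h3, ae_restrict_mem measurableSet_Ioo] with x hx hx2
  have h4 : F x = 0 := by
    have := pow_eq_zero_iff (two_ne_zero) |>.mp hx
    exact norm_eq_zero.mp this
  have h5 : -x ∉ Ioo 0 Real.pi := fun h => by linarith [h.1, hx2.1]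
  simp only [hF, hg, indicator_of_mem hx2, indicator_of_notMem h5, sub_zero] at h4
  exact h4

end Pool.Agent.W991.CP.Sine
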