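import Pool.Agent.W738.CP.Stms
import Pool.Agent.W991.CP.Lap

/-!
Project CP (helper738), part TEST: separated test functions.
-/

set_option autoImplicit false

open MeasureTheory Set Filter Topology
open scoped ContDiff

namespace Pool.Agent.W991.CP.Test

open Pool.Agent.W738.CP
open Pool.Agent.W991.CP.Lap (ne_Cs Cs)

/-- the map of the disc onto the upper half plane -/
noncomputable def om (z : ℂ) : ℂ := Complex.I * (1 + z) / (1 - z)

/-- the function on the upper half plane -/
noncomputable def H (k : ℕ) (η : ℝ → ℝ) (w : ℂ) : ℝ :=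
  η (Real.log ‖w‖) * (w ^ k).im / ‖w‖ ^ k

variable {k : ℕ} {η : ℝ → ℝ}

lemma H_zero : H k η 0 = 0 := by
  rw [H]
  cases k <;> simp

lemma exists_R (h : HasCompactSupport η) : ∃ R : ℝ, ∀ t, R ≤ |t| → η t = 0 := by
  obtain ⟨R, hR⟩ := h.isCompact.isBounded.subset_closedBall (0 : ℝ)
  refine ⟨R + 1, fun t ht => ?_⟩
  by_contra hne
  have h1 := hR (subset_tsupport η hne)
  rw [Metric.mem_closedBall, Real.dist_eq, sub_zero] at h1
  linarith

lemma H_small {R : ℝ} (hR : ∀ t, R ≤ |t| → η t = 0) {w : ℂ} (hw : ‖w‖ < Real.exp (-|R|)) :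
    H k η w = 0 := by
  by_cases h0 : w = 0
  · rw [h0, H_zero]
  · have h1 : 0 < ‖w‖ := norm_pos_iff.mpr h0
    have h2 : Real.log ‖w‖ < -|R| := by
      rw [Real.log_lt_iff_lt_exp h1]
      exact hw
    have h3 : η (Real.log ‖w‖) = 0 := by
      apply hR
      have h4 := neg_le_abs (Real.log ‖w‖)
      have h5 := le_abs_self R
      linarith
    rw [H, h3]
    simp

lemma H_large {R : ℝ} (hR : ∀ t, R ≤ |t| → η t = 0) {w : ℂ} (hw : Real.exp |R| < ‖w‖) :
    H k η w = 0 := by
  have h1 : 0 < ‖w‖ := (Real.exp_pos _).trans hw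
  have h2 : |R| < Real.log ‖w‖ := by
    rw [Real.lt_log_iff_exp_lt h1]
    exact hw
  have h3 : η (Real.log ‖w‖) = 0 := by
    apply hR
    have h4 := le_abs_self (Real.log ‖w‖)
    have h5 := le_abs_self R
    linarith
  rw [H, h3]
  simp

lemma H_near_zero (h : HasCompactSupport η) : ∀ᶠ w in 𝓝 (0 : ℂ), H k η w = 0 := by
  obtain ⟨R, hR⟩ := exists_R h
  have : Metric.ball (0 : ℂ) (Real.exp (-|R|)) ∈ 𝓝 (0 : ℂ) := Metric.ball_mem_nhds _ (Real.exp_pos _)
  filter_upwards [this] with w hw
  rw [Metric.mem_ball, dist_zero_right] at hw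
  exact H_small hR hw

lemma psi_near_one (h : HasCompactSupport η) : ∀ᶠ z in 𝓝 (1 : ℂ), H k η (om z) = 0 := by
  obtain ⟨R, hR⟩ := exists_R h
  have : Metric.ball (1 : ℂ) (min 1 (Real.exp (-|R|))) ∈ 𝓝 (1 : ℂ) :=
    Metric.ball_mem_nhds _ (lt_min one_pos (Real.exp_pos _))
  filter_upwards [this] with z hz
  rw [Metric.mem_ball, dist_comm, dist_eq_norm] at hz
  by_cases h1 : z = 1
  · rw [h1, om]
    simp [H_zero]
  · have h2 : (1 : ℂ) - z ≠ 0 := fun h => h1 (sub_eq_zero.mp h).symm
    have h3 : 0 < ‖(1 : ℂ) - z‖ := norm_pos_iff.mpr h2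
    have h4 : ‖(1 : ℂ) - z‖ < 1 := hz.trans_le (min_le_left _ _)
    have h5 : ‖(1 : ℂ) - z‖ < Real.exp (-|R|) := hz.trans_le (min_le_right _ _)
    have h6 : 1 ≤ ‖(1 : ℂ) + z‖ := by
      have h7 : ‖(2 : ℂ)‖ ≤ ‖(1 : ℂ) + z‖ + ‖(1 : ℂ) - z‖ := by
        have := norm_add_le ((1 : ℂ) + z) (1 - z)
        have h8 : (1 : ℂ) + z + (1 - z) = 2 := by ring
        rwa [h8] at this
      have h9 : ‖(2 : ℂ)‖ = 2 := by simp
      rw [h9] at h7
      linarith
    apply H_large hR
    rw [om, norm_div, norm_mul, Complex.norm_I, one_mul, lt_div_iff₀ h3]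
    calc Real.exp |R| * ‖(1 : ℂ) - z‖ < Real.exp |R| * Real.exp (-|R|) :=
          mul_lt_mul_of_pos_left h5 (Real.exp_pos _)
      _ = 1 := by rw [← Real.exp_add]; simp
      _ ≤ ‖(1 : ℂ) + z‖ := h6

lemma om_contDiffAt {z : ℂ} (h : z ≠ 1) : ContDiffAt ℝ ∞ om z := by
  have h1 : (1 : ℂ) - z ≠ 0 := fun h' => h (sub_eq_zero.mp h').symm
  have h2 : ContDiffAt ℂ ∞ (fun z : ℂ => Complex.I * (1 + z) / (1 - z)) z :=
    (contDiffAt_const.mul (contDiffAt_const.add contDiffAt_id)).div
      (contDiffAt_const.sub contDiffAt_id) h1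
  exact h2.restrict_scalars ℝ

lemma H_contDiffAt (hη : ContDiff ℝ ∞ η) {w : ℂ} (h : w ≠ 0) : ContDiffAt ℝ ∞ (H k η) w := by
  have h1 : ContDiffAt ℝ ∞ (fun w : ℂ => ‖w‖) w := contDiffAt_norm ℝ h
  have h2 : ‖w‖ ≠ 0 := norm_ne_zero_iff.mpr h
  have h3 : ContDiffAt ℝ ∞ (fun w : ℂ => η (Real.log ‖w‖)) w :=
    hη.contDiffAt.comp w (h1.log h2)
  have h4 : ContDiffAt ℝ ∞ (fun w : ℂ => (w ^ k).im) w :=
    (Complex.imCLM.contDiff.comp (contDiff_id.pow k)).contDiffAt
  unfold H
  exact (h3.mul h4).div (h1.pow k) (pow_ne_zero k h2)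

theorem test : S_Test := by
  intro k η α hη hc hs
  have hmain : ∀ z : ℂ, z ≠ 1 → (om z = 0 ∨ Real.log ‖om z‖ ∉ tsupport η) →
      ∀ᶠ y in 𝓝 z, H k η (om y) = 0 := by
    intro z hz hcase
    have hcont : ContinuousAt om z := (om_contDiffAt hz).continuousAt
    by_cases h0 : om z = 0
    · have h1 := H_near_zero (k := k) hc
      rw [← h0] at h1
      exact hcont.eventually h1
    · have h1 : Real.log ‖om z‖ ∉ tsupport η := hcase.resolve_left h0
      have h2 : ContinuousAt (fun y => Real.log ‖om y‖) z :=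
        hcont.norm.log (norm_ne_zero_iff.mpr h0)
      have h3 : (tsupport η)ᶜ ∈ 𝓝 (Real.log ‖om z‖) :=
        (isClosed_tsupport η).isOpen_compl.mem_nhds h1
      filter_upwards [h2.eventually h3] with y hy
      have h4 : η (Real.log ‖om y‖) = 0 := image_eq_zero_of_notMem_tsupport hy
      rw [H, h4]
      simp
  refine ⟨fun z => H k η (om z), ?_, ?_, ?_, ?_⟩
  · rw [contDiff_iff_contDiffAt]
    intro z
    by_cases h1 : z = 1
    · subst h1
      have h2 : (fun z => H k η (om z)) =ᶠ[𝓝 1] fun _ => 0 := psi_near_one hc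
      exact contDiffAt_const.congr_of_eventuallyEq h2
    · by_cases h0 : om z = 0
      · have h2 : (fun z => H k η (om z)) =ᶠ[𝓝 z] fun _ => 0 := hmain z h1 (Or.inl h0)
        exact contDiffAt_const.congr_of_eventuallyEq h2
      · exact (H_contDiffAt hη h0).comp z (om_contDiffAt h1)
  · intro t s h0 hπ
    have hmem : ((t : ℂ) + s * Complex.I) ∈ Cs := by
      constructor <;> simp [h0, hπ]
    have hne := ne_Cs hmem
    set w := Complex.exp ((t : ℂ) + s * Complex.I) with hw
    have h1 : om (Z t s) = w := by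
      rw [om, Z, ← hw]
      have h2 : (1 : ℂ) - (w - Complex.I) / (w + Complex.I) = 2 * Complex.I / (w + Complex.I) := by
        field_simp
        ring
      have h3 : (1 : ℂ) + (w - Complex.I) / (w + Complex.I) = 2 * w / (w + Complex.I) := by
        field_simp
        ring
      rw [h2, h3]
      have h4 : (2 * Complex.I / (w + Complex.I) : ℂ) ≠ 0 := by
        apply div_ne_zero _ hne
        simp
      rw [div_eq_iff h4]
      field_simp
    have hnorm : ‖w‖ = Real.exp t := by
      rw [hw, Complex.norm_exp]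
      congr 1
      simp
    have h5 : (w ^ k).im = Real.exp t ^ k * Real.sin (k * s) := by
      rw [hw, ← Complex.exp_nat_mul, Complex.exp_im]
      have h6 : ((k : ℂ) * ((t : ℂ) + s * Complex.I)).re = k * t := by simp
      have h7 : ((k : ℂ) * ((t : ℂ) + s * Complex.I)).im = k * s := by simp
      rw [h6, h7, Real.exp_nat_mul]
    beta_reduce
    rw [h1, H, hnorm, Real.log_exp, h5]
    have : Real.exp t ^ k ≠ 0 := pow_ne_zero k (Real.exp_ne_zero t)
    field_simp
  · intro z hz
    rw [mem_sphere_zero_iff_norm] at hz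
    beta_reduce
    by_cases h1 : z = 1
    · rw [h1, om]
      simp [H_zero]
    · have h2 : (1 : ℂ) - z ≠ 0 := fun h => h1 (sub_eq_zero.mp h).symm
      have him : (om z).im = 0 := by
        have h3 : Complex.normSq (1 - z) ≠ 0 := by
          rw [Ne, Complex.normSq_eq_zero]
          exact h2
        have h4 : z.re * z.re + z.im * z.im = 1 := by
          have := Complex.normSq_eq_norm_sq z
          rw [hz, Complex.normSq_apply] at this
          linarith
        rw [om, Complex.div_im]
        simp only [Complex.mul_re, Complex.mul_im, Complex.I_re, Complex.I_im, Complex.add_re,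
          Complex.add_im, Complex.sub_re, Complex.sub_im, Complex.one_re, Complex.one_im]
        field_simp
        linear_combination -h4
      have h5 : om z = ((om z).re : ℂ) := by
        apply Complex.ext
        · simp
        · simp [him]
      have h6 : ((om z) ^ k).im = 0 := by
        rw [h5, ← Complex.ofReal_pow, Complex.ofReal_im]
      rw [H, h6]
      simp
  · intro z hz hre
    rw [mem_sphere_zero_iff_norm] at hz
    have hth : Real.tanh α < 1 := Real.tanh_lt_one α
    have h1 : z ≠ 1 := by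
      intro h
      rw [h, Complex.one_re] at hre
      linarith
    have h2 : (1 : ℂ) - z ≠ 0 := fun h => h1 (sub_eq_zero.mp h).symm
    refine hmain z h1 ?_
    by_cases h0 : om z = 0
    · exact Or.inl h0
    · right
      intro hmem
      have h3 : α < Real.log ‖om z‖ := hs hmem
      have h4 : 0 < ‖om z‖ := norm_pos_iff.mpr h0
      rw [Real.lt_log_iff_exp_lt h4] at h3
      have hn : z.re * z.re + z.im * z.im = 1 := by
        have := Complex.normSq_eq_norm_sq z
        rw [hz, Complex.normSq_apply] at this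
        linarith
      have h5 : ‖om z‖ ^ 2 * (1 - z.re) = 1 + z.re := by
        have h6 : ‖(1 : ℂ) + z‖ ^ 2 = 2 * (1 + z.re) := by
          rw [← Complex.normSq_eq_norm_sq, Complex.normSq_apply]
          simp only [Complex.add_re, Complex.add_im, Complex.one_re, Complex.one_im]
          linear_combination hn
        have h7 : ‖(1 : ℂ) - z‖ ^ 2 = 2 * (1 - z.re) := by
          rw [← Complex.normSq_eq_norm_sq, Complex.normSq_apply]
          simp only [Complex.sub_re, Complex.sub_im, Complex.one_re, Complex.one_im]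
          linear_combination hn
        have h8 : ‖om z‖ ^ 2 * ‖(1 : ℂ) - z‖ ^ 2 = ‖(1 : ℂ) + z‖ ^ 2 := by
          rw [om, norm_div, norm_mul, Complex.norm_I, one_mul, div_pow]
          have : ‖(1 : ℂ) - z‖ ^ 2 ≠ 0 := pow_ne_zero 2 (norm_ne_zero_iff.mpr h2)
          field_simp
        rw [h6, h7] at h8
        linarith
      have h6 : Real.exp α ^ 2 < ‖om z‖ ^ 2 := by
        apply pow_lt_pow_left₀ h3 (Real.exp_pos _).le two_ne_zero
      have h7 : Real.tanh α * (Real.exp α ^ 2 + 1) = Real.exp α ^ 2 - 1 := by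
        rw [Real.tanh_eq_sinh_div_cosh, Real.sinh_eq, Real.cosh_eq, Real.exp_neg]
        have := Real.exp_pos α
        field_simp
      have h8 : 0 < 1 - z.re := by linarith
      have h9 : Real.exp α ^ 2 * (1 - z.re) < 1 + z.re := by
        rw [← h5]
        exact mul_lt_mul_of_pos_right h6 h8
      nlinarith [Real.exp_pos α]

end Pool.Agent.W991.CP.Test
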