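import Pool.Agent.W738.CP.Stms

/-!
Project CP (helper738), part WEAK: weak solutions of `c'' = g c`.
-/

set_option autoImplicit false

open MeasureTheory Set Filter Topology
open scoped ContDiff

namespace Pool.Agent.W991.CP.Weak

open Pool.Agent.W738.CP

/-- test functions on `(a, ∞)` -/
structure Tst (a : ℝ) (η : ℝ → ℝ) : Prop where
  smooth : ContDiff ℝ ∞ η
  cpt : HasCompactSupport η
  sub : tsupport η ⊆ Ioi a

lemma Tst.bounds {a : ℝ} {η : ℝ → ℝ} (h : Tst a η) :
    ∃ u v, a < u ∧ u ≤ a + 1 ∧ a + 1 ≤ v ∧ ∀ t, t ∉ Ioo u v → η t = 0 := by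
  by_cases hne : (tsupport η).Nonempty
  · obtain ⟨m, hm, hmin⟩ := h.cpt.isCompact.exists_isLeast hne
    obtain ⟨M, hM, hmax⟩ := h.cpt.isCompact.exists_isGreatest hne
    have ham : a < m := h.sub hm
    refine ⟨(a + min m (a + 1)) / 2, max M (a + 1) + 1, ?_, ?_, ?_, ?_⟩
    · have : a < min m (a + 1) := lt_min ham (by linarith)
      linarith
    · have : min m (a + 1) ≤ a + 1 := min_le_right _ _
      linarith
    · have : a + 1 ≤ max M (a + 1) := le_max_right _ _
      linarith
    · intro t ht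
      by_contra hne0
      have hts : t ∈ tsupport η := subset_tsupport η hne0
      refine ht ⟨?_, ?_⟩
      · have h1 := hmin hts
        have h2 : min m (a + 1) ≤ m := min_le_left _ _
        linarith
      · have h1 := hmax hts
        have h2 : M ≤ max M (a + 1) := le_max_left _ _
        linarith
  · refine ⟨a + 1 / 2, a + 1, by linarith, by linarith, le_rfl, fun t _ => ?_⟩
    by_contra hne0
    exact hne ⟨t, subset_tsupport η hne0⟩

lemma Tst.deriv {a : ℝ} {η : ℝ → ℝ} (h : Tst a η) : Tst a (deriv η) := by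
  refine ⟨?_, h.cpt.deriv, (closure_mono (support_deriv_subset)).trans ?_⟩
  · exact (contDiff_infty_iff_deriv.mp h.smooth).2
  · rw [isClosed_tsupport η |>.closure_eq]
    exact h.sub

lemma Tst.sub' {a : ℝ} {η ρ : ℝ → ℝ} (h : Tst a η) (h' : Tst a ρ) (k : ℝ) :
    Tst a (fun t => η t - k * ρ t) := by
  have hsupp : Function.support (fun t => η t - k * ρ t) ⊆ tsupport η ∪ tsupport ρ := by
    intro t ht
    by_contra hcon
    rw [mem_union, not_or] at hcon
    apply ht
    simp only
    rw [image_eq_zero_of_notMem_tsupport hcon.1, image_eq_zero_of_notMem_tsupport hcon.2]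
    ring
  have hts : tsupport (fun t => η t - k * ρ t) ⊆ tsupport η ∪ tsupport ρ :=
    closure_minimal hsupp ((isClosed_tsupport η).union (isClosed_tsupport ρ))
  refine ⟨h.smooth.sub (contDiff_const.mul h'.smooth), ?_, ?_⟩
  · exact IsCompact.of_isClosed_subset (h.cpt.isCompact.union h'.cpt.isCompact)
      (isClosed_tsupport _) hts
  · exact hts.trans (union_subset h.sub h'.sub)

/-- a test function with integral one -/
lemma exists_bump (a : ℝ) : ∃ ρ : ℝ → ℝ, Tst a ρ ∧ ∫ t, ρ t = 1 := by
  let f : ContDiffBump (a + 1 : ℝ) := ⟨1 / 4, 1 / 2, by norm_num, by norm_num⟩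
  refine ⟨f.normed volume, ⟨f.contDiff_normed, f.hasCompactSupport_normed, ?_⟩,
    f.integral_normed⟩
  rw [f.tsupport_normed_eq]
  intro t ht
  rw [Metric.mem_closedBall, Real.dist_eq] at ht
  have h1 : f.rOut = 1 / 2 := rfl
  rw [h1, abs_le] at ht
  rw [mem_Ioi]
  linarith [ht.1]

/-- interval integrability -/
lemma intInt {a : ℝ} {G : ℝ → ℂ} (hG : LocallyIntegrableOn G (Ioi a)) {s t : ℝ} (hs : a < s)
    (ht : a < t) : IntervalIntegrable G volume s t := by
  rw [intervalIntegrable_iff]
  have hsub : uIcc s t ⊆ Ioi a := by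
    intro x hx
    rw [mem_uIcc] at hx
    rw [mem_Ioi]
    rcases hx with hx | hx <;> linarith [hx.1]
  exact (hG.integrableOn_compact_subset hsub isCompact_uIcc).mono_set uIoc_subset_uIcc

/-- test function times locally integrable function -/
lemma Tst.integrableOn {a : ℝ} {η : ℝ → ℝ} (h : Tst a η) {w : ℝ → ℂ}
    (hw : LocallyIntegrableOn w (Ioi a)) :
    IntegrableOn (fun t => (η t : ℂ) * w t) (Ioi a) := by
  have hc : Continuous (fun t => (η t : ℂ)) := Complex.continuous_ofReal.comp h.smooth.continuous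
  have h1 : IntegrableOn w (tsupport η) := hw.integrableOn_compact_subset h.sub h.cpt.isCompact
  obtain ⟨C, hC⟩ := h.cpt.exists_bound_of_continuous h.smooth.continuous
  have h2 : IntegrableOn (fun t => (η t : ℂ) * w t) (tsupport η) := by
    refine h1.bdd_mul (c := C) hc.aestronglyMeasurable (Eventually.of_forall fun t => ?_)
    rw [Complex.norm_real]
    exact hC t
  refine (integrableOn_iff_integrable_of_support_subset ?_).mpr
    ((integrableOn_iff_integrable_of_support_subset ?_).mp h2)
  · intro t ht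
    refine h.sub (subset_tsupport η ?_)
    intro h0
    apply ht
    simp only [h0, Complex.ofReal_zero, zero_mul]
  · intro t ht
    refine subset_tsupport η ?_
    intro h0
    apply ht
    simp only [h0, Complex.ofReal_zero, zero_mul]

/-- set integral to interval integral -/
lemma set_to_interval {a u v : ℝ} {η : ℝ → ℝ} (hu : a < u) (huv : u ≤ v)
    (h : ∀ t, t ∉ Ioo u v → η t = 0) (w : ℝ → ℂ) :
    ∫ t in Ioi a, (η t : ℂ) * w t = ∫ t in u..v, (η t : ℂ) * w t := by
  rw [intervalIntegral.integral_of_le huv]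
  refine setIntegral_eq_of_subset_of_forall_sdiff_eq_zero measurableSet_Ioi ?_ ?_
  · intro t ht
    exact hu.trans ht.1
  · intro t ht
    have : t ∉ Ioo u v := fun h' => ht.2 ⟨h'.1, h'.2.le⟩
    rw [h t this]
    simp

/-- integration by parts by Fubini -/
lemma parts_core {u v : ℝ} (huv : u ≤ v) {G : ℝ → ℂ} (hG : IntervalIntegrable G volume u v)
    {θ : ℝ → ℝ} (hθ : ContDiff ℝ ∞ θ) (hv : θ v = 0) :
    ∫ t in u..v, ((deriv θ t : ℝ) : ℂ) * ∫ s in u..t, G s = -∫ t in u..v, (θ t : ℂ) * G t := by
  have hd : ∀ t, HasDerivAt θ (deriv θ t) t := fun t =>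
    (hθ.differentiable (by simp)).differentiableAt.hasDerivAt
  have hdc : Continuous (deriv θ) := hθ.continuous_deriv (by simp)
  set μ : Measure ℝ := volume.restrict (Ioc u v) with hμ
  have hGi : Integrable G μ := (intervalIntegrable_iff_integrableOn_Ioc_of_le huv).mp hG
  have hDi : Integrable (fun t => ((deriv θ t : ℝ) : ℂ)) μ := by
    have : IntegrableOn (fun t => ((deriv θ t : ℝ) : ℂ)) (Icc u v) :=
      (Complex.continuous_ofReal.comp hdc).continuousOn.integrableOn_Icc
    exact this.mono_set Ioc_subset_Icc_self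
  set f : ℝ → ℝ → ℂ := fun t s => if s ≤ t then ((deriv θ t : ℝ) : ℂ) * G s else 0 with hf
  have hfi : Integrable (Function.uncurry f) (μ.prod μ) := by
    have h1 := hDi.mul_prod hGi
    have hms : MeasurableSet {p : ℝ × ℝ | p.2 ≤ p.1} := measurableSet_le measurable_snd measurable_fst
    have h2 := h1.indicator hms
    refine h2.congr (Eventually.of_forall fun p => ?_)
    simp only [Function.uncurry, hf, indicator, mem_ofPred_eq]
  have hL : ∫ t in u..v, ((deriv θ t : ℝ) : ℂ) * ∫ s in u..t, G s = ∫ t, ∫ s, f t s ∂μ ∂μ := by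
    rw [intervalIntegral.integral_of_le huv]
    refine setIntegral_congr_fun measurableSet_Ioc fun t ht => ?_
    rw [intervalIntegral.integral_of_le ht.1.le, ← integral_const_mul, hμ,
      ← integral_indicator measurableSet_Ioc, ← integral_indicator measurableSet_Ioc]
    refine integral_congr_ae (Eventually.of_forall fun s => ?_)
    simp only [hf, indicator, mem_Ioc]
    by_cases h1 : u < s ∧ s ≤ t
    · rw [if_pos h1, if_pos ⟨h1.1, h1.2.trans ht.2⟩, if_pos h1.2]
    · rw [if_neg h1]
      by_cases h2 : u < s ∧ s ≤ v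
      · rw [if_pos h2, if_neg (fun h3 => h1 ⟨h2.1, h3⟩)]
      · rw [if_neg h2]
  have hR : ∫ s, ∫ t, f t s ∂μ ∂μ = -∫ t in u..v, (θ t : ℂ) * G t := by
    rw [intervalIntegral.integral_of_le huv, ← integral_neg]
    refine setIntegral_congr_fun measurableSet_Ioc fun s hs => ?_
    have h1 : ∫ t, f t s ∂μ = ∫ t in s..v, ((deriv θ t : ℝ) : ℂ) * G s := by
      rw [intervalIntegral.integral_of_le hs.2, ← integral_indicator measurableSet_Ioc,
        ← integral_indicator measurableSet_Ioc]
      refine integral_congr_ae ?_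
      have : ∀ᵐ t : ℝ, t ≠ s := by simp [ae_iff, measure_singleton]
      filter_upwards [this] with t ht
      simp only [hf, indicator, mem_Ioc]
      by_cases h1 : s < t ∧ t ≤ v
      · rw [if_pos h1, if_pos ⟨hs.1.trans h1.1, h1.2⟩, if_pos h1.1.le]
      · rw [if_neg h1]
        by_cases h2 : u < t ∧ t ≤ v
        · rw [if_pos h2, if_neg]
          intro h3
          exact h1 ⟨lt_of_le_of_ne h3 (Ne.symm ht), h2.2⟩
        · rw [if_neg h2]
    rw [h1, intervalIntegral.integral_mul_const, intervalIntegral.integral_ofReal,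
      intervalIntegral.integral_eq_sub_of_hasDerivAt (fun t _ => hd t)
        (hdc.intervalIntegrable _ _), hv]
    push_cast
    ring
  rw [hL, integral_integral_swap hfi, hR]

/-- the primitive -/
noncomputable def Pr (a : ℝ) (G : ℝ → ℂ) (t : ℝ) : ℂ := ∫ s in (a + 1)..t, G s

lemma Pr_continuousOn {a : ℝ} {G : ℝ → ℂ} (hG : LocallyIntegrableOn G (Ioi a)) :
    ContinuousOn (Pr a G) (Ioi a) := by
  intro t ht
  rw [mem_Ioi] at ht
  set u := (a + min t (a + 1)) / 2 with hu
  set v := max t (a + 1) + 1 with hv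
  have h1 : a < min t (a + 1) := lt_min ht (by linarith)
  have h2 : a < u := by rw [hu]; linarith
  have h3 : u < t := by
    have : min t (a + 1) ≤ t := min_le_left _ _
    rw [hu]; linarith
  have h4 : u < a + 1 := by
    have : min t (a + 1) ≤ a + 1 := min_le_right _ _
    rw [hu]; linarith
  have h5 : t < v := by
    have : t ≤ max t (a + 1) := le_max_left _ _
    rw [hv]; linarith
  have h6 : a + 1 < v := by
    have : a + 1 ≤ max t (a + 1) := le_max_right _ _
    rw [hv]; linarith
  have h7 : ContinuousOn (Pr a G) (uIcc u v) := by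
    refine intervalIntegral.continuousOn_primitive_interval' (intInt hG h2 (by linarith)) ?_
    rw [mem_uIcc]
    exact Or.inl ⟨h4.le, h6.le⟩
  have h8 : uIcc u v ∈ 𝓝 t := by
    rw [uIcc_of_le (by linarith)]
    exact Icc_mem_nhds h3 h5
  exact (h7.continuousAt h8).continuousWithinAt

lemma Pr_sub {a : ℝ} {G : ℝ → ℂ} (hG : LocallyIntegrableOn G (Ioi a)) {s t : ℝ} (hs : a < s)
    (ht : a < t) : Pr a G t = Pr a G s + ∫ x in s..t, G x := by
  rw [Pr, Pr]
  exact (intervalIntegral.integral_add_adjacent_intervals (intInt hG (by linarith) hs)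
    (intInt hG hs ht)).symm

/-- integration by parts -/
lemma parts {a : ℝ} {G : ℝ → ℂ} (hG : LocallyIntegrableOn G (Ioi a)) {θ : ℝ → ℝ}
    (hθ : Tst a θ) :
    ∫ t in Ioi a, ((deriv θ t : ℝ) : ℂ) * Pr a G t = -∫ t in Ioi a, (θ t : ℂ) * G t := by
  obtain ⟨u, v, hu, hu1, hv1, h0⟩ := hθ.bounds
  have huv : u ≤ v := hu1.trans hv1
  have hθv : θ v = 0 := h0 v (fun h => lt_irrefl _ h.2)
  have hθu : θ u = 0 := h0 u (fun h => lt_irrefl _ h.1)
  -- the derivative vanishes outside
  have hd0 : ∀ t, t ∉ Icc u v → deriv θ t = 0 := by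
    intro t ht
    have : θ =ᶠ[𝓝 t] fun _ => 0 := by
      have hopen : (Icc u v)ᶜ ∈ 𝓝 t := isClosed_Icc.isOpen_compl.mem_nhds ht
      filter_upwards [hopen] with y hy
      exact h0 y (fun h => hy ⟨h.1.le, h.2.le⟩)
    rw [this.deriv_eq, deriv_const]
  have hset : ∫ t in Ioi a, ((deriv θ t : ℝ) : ℂ) * Pr a G t =
      ∫ t in u..v, ((deriv θ t : ℝ) : ℂ) * Pr a G t := by
    rw [intervalIntegral.integral_of_le huv, ← integral_Icc_eq_integral_Ioc]
    refine setIntegral_eq_of_subset_of_forall_sdiff_eq_zero measurableSet_Ioi ?_ ?_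
    · intro t ht
      exact lt_of_lt_of_le hu ht.1
    · intro t ht
      rw [hd0 t ht.2]
      simp
  have hdc : Continuous (fun t => ((deriv θ t : ℝ) : ℂ)) :=
    Complex.continuous_ofReal.comp (hθ.smooth.continuous_deriv (by simp))
  rw [hset, set_to_interval hu huv h0 G, ← parts_core huv (intInt hG hu (by linarith)) hθ.smooth hθv]
  have h1 : ∫ t in u..v, ((deriv θ t : ℝ) : ℂ) * Pr a G t =
      ∫ t in u..v, (((deriv θ t : ℝ) : ℂ) * Pr a G u +
        ((deriv θ t : ℝ) : ℂ) * ∫ s in u..t, G s) := by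
    refine intervalIntegral.integral_congr fun t ht => ?_
    rw [uIcc_of_le huv] at ht
    rw [Pr_sub hG hu (lt_of_lt_of_le hu ht.1)]
    ring
  have hcont : ContinuousOn (fun t => ∫ s in u..t, G s) (uIcc u v) :=
    intervalIntegral.continuousOn_primitive_interval' (intInt hG hu (by linarith)) left_mem_uIcc
  rw [h1, intervalIntegral.integral_add, intervalIntegral.integral_mul_const,
    intervalIntegral.integral_ofReal]
  · have h2 : ∫ t in u..v, deriv θ t = 0 := by
      rw [intervalIntegral.integral_eq_sub_of_hasDerivAt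
        (fun t _ => (hθ.smooth.differentiable (by simp)).differentiableAt.hasDerivAt)
        ((hθ.smooth.continuous_deriv (by simp)).intervalIntegrable _ _), hθv, hθu, sub_zero]
    rw [h2]
    simp
  · exact (hdc.mul continuous_const).intervalIntegrable _ _
  · exact (hdc.continuousOn.mul hcont).intervalIntegrable

/-- primitives of test functions with integral zero -/
lemma prim {a : ℝ} {θ : ℝ → ℝ} (hθ : Tst a θ) (h0 : ∫ t, θ t = 0) :
    ∃ η : ℝ → ℝ, Tst a η ∧ deriv η = θ := by
  obtain ⟨u, v, hu, hu1, hv1, hz⟩ := hθ.bounds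
  have huv : u ≤ v := hu1.trans hv1
  set η : ℝ → ℝ := fun t => ∫ s in u..t, θ s with hη
  have hd : ∀ t, HasDerivAt η (θ t) t := fun t =>
    intervalIntegral.integral_hasDerivAt_right (hθ.smooth.continuous.intervalIntegrable _ _)
      (hθ.smooth.continuous.stronglyMeasurableAtFilter _ _) hθ.smooth.continuous.continuousAt
  have hderiv : deriv η = θ := funext fun t => (hd t).deriv
  have hlow : ∀ t, t ≤ u → η t = 0 := by
    intro t ht
    rw [hη]
    simp only
    rw [intervalIntegral.integral_congr (g := fun _ => (0 : ℝ)), intervalIntegral.integral_zero]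
    intro s hs
    rw [uIcc_of_ge ht] at hs
    exact hz s (fun h => not_lt.mpr hs.2 h.1)
  have htot : ∫ s in u..v, θ s = 0 := by
    rw [← h0, intervalIntegral.integral_of_le huv, setIntegral_eq_integral_of_forall_compl_eq_zero]
    intro t ht
    exact hz t (fun h => ht ⟨h.1, h.2.le⟩)
  have hhigh : ∀ t, v ≤ t → η t = 0 := by
    intro t ht
    have h1 : η t = (∫ s in u..v, θ s) + ∫ s in v..t, θ s :=
      (intervalIntegral.integral_add_adjacent_intervals
        (hθ.smooth.continuous.intervalIntegrable _ _)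
        (hθ.smooth.continuous.intervalIntegrable _ _)).symm
    rw [h1, htot, zero_add, intervalIntegral.integral_congr (g := fun _ => (0 : ℝ)),
      intervalIntegral.integral_zero]
    intro s hs
    rw [uIcc_of_le ht] at hs
    exact hz s (fun h => not_lt.mpr hs.1 h.2)
  have hsupp : Function.support η ⊆ Icc u v := by
    intro t ht
    by_contra hcon
    rw [mem_Icc, not_and_or, not_le, not_le] at hcon
    rcases hcon with h | h
    · exact ht (hlow t h.le)
    · exact ht (hhigh t h.le)
  have hts : tsupport η ⊆ Icc u v := closure_minimal hsupp isClosed_Icc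
  refine ⟨η, ⟨?_, ?_, ?_⟩, hderiv⟩
  · rw [contDiff_infty_iff_deriv]
    exact ⟨fun t => (hd t).differentiableAt, by rw [hderiv]; exact hθ.smooth⟩
  · exact IsCompact.of_isClosed_subset isCompact_Icc (isClosed_tsupport _) hts
  · intro t ht
    exact lt_of_lt_of_le hu (hts ht).1

/-- the integral of a test function over `(a, ∞)` is its integral -/
lemma Tst.int_eq {a : ℝ} {θ : ℝ → ℝ} (hθ : Tst a θ) : ∫ t in Ioi a, (θ t : ℂ) = ((∫ t, θ t : ℝ) : ℂ) := by
  rw [setIntegral_eq_integral_of_forall_compl_eq_zero]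
  · exact integral_ofReal
  intro t ht
  have : θ t = 0 := image_eq_zero_of_notMem_tsupport fun h => ht (hθ.sub h)
  rw [this, Complex.ofReal_zero]

/-- du Bois-Reymond -/
lemma dBR {a : ℝ} {w : ℝ → ℂ} (hw : LocallyIntegrableOn w (Ioi a))
    (h : ∀ θ, Tst a θ → ∫ t in Ioi a, ((deriv θ t : ℝ) : ℂ) * w t = 0) :
    ∃ k : ℂ, ∀ᵐ t ∂(volume.restrict (Ioi a)), w t = k := by
  obtain ⟨ρ, hρ, hρ1⟩ := exists_bump a
  set k : ℂ := ∫ t in Ioi a, (ρ t : ℂ) * w t with hk
  refine ⟨k, ?_⟩
  have hwk : LocallyIntegrableOn (fun t => w t - k) (Ioi a) :=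
    hw.sub ((locallyIntegrable_const k).locallyIntegrableOn _)
  have hconst : LocallyIntegrableOn (fun _ : ℝ => k) (Ioi a) :=
    (locallyIntegrable_const k).locallyIntegrableOn _
  have hmain := isOpen_Ioi.ae_eq_zero_of_integral_contDiff_smul_eq_zero (μ := volume) hwk (by
    intro g hg1 hg2 hg3
    have hg : Tst a g := ⟨hg1, hg2, hg3⟩
    have hθ1 : Tst a (fun t => g t - (∫ t, g t) * ρ t) := hg.sub' hρ _
    have hint0 : ∫ t, (g t - (∫ t, g t) * ρ t) = 0 := by
      rw [integral_sub, integral_const_mul, hρ1, mul_one, sub_self]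
      · exact hg1.continuous.integrable_of_hasCompactSupport hg2
      · exact (hρ.smooth.continuous.integrable_of_hasCompactSupport hρ.cpt).const_mul _
    obtain ⟨η, hη, hηd⟩ := prim hθ1 hint0
    have h1 := h η hη
    rw [hηd] at h1
    have h2 : ∫ t in Ioi a, ((g t - (∫ t, g t) * ρ t : ℝ) : ℂ) * w t =
        (∫ t in Ioi a, (g t : ℂ) * w t) - ((∫ t, g t : ℝ) : ℂ) * k := by
      rw [hk, ← integral_const_mul, ← integral_sub (hg.integrableOn hw)
        ((hρ.integrableOn hw).const_mul _)]
      refine integral_congr_ae (Eventually.of_forall fun t => ?_)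
      simp only
      push_cast
      ring
    rw [h2] at h1
    have h3 : ∫ x, g x • (w x - k) = ∫ t in Ioi a, (g t : ℂ) * (w t - k) := by
      rw [setIntegral_eq_integral_of_forall_compl_eq_zero]
      · refine integral_congr_ae (Eventually.of_forall fun t => ?_)
        simp only [Complex.real_smul]
      · intro t ht
        have : g t = 0 := image_eq_zero_of_notMem_tsupport fun h => ht (hg3 h)
        rw [this]
        simp
    rw [h3]
    have h4 : ∫ t in Ioi a, (g t : ℂ) * (w t - k) =
        (∫ t in Ioi a, (g t : ℂ) * w t) - ∫ t in Ioi a, (g t : ℂ) * k := by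
      rw [← integral_sub (hg.integrableOn hw) (hg.integrableOn hconst)]
      refine integral_congr_ae (Eventually.of_forall fun t => ?_)
      simp only
      ring
    rw [h4, integral_mul_const, hg.int_eq]
    exact h1)
  rw [ae_restrict_iff' measurableSet_Ioi]
  filter_upwards [hmain] with t ht hta
  exact sub_eq_zero.mp (ht hta)

/-- weak derivatives -/
lemma weak_deriv {a : ℝ} {c G : ℝ → ℂ} (hc : LocallyIntegrableOn c (Ioi a))
    (hG : LocallyIntegrableOn G (Ioi a))
    (h : ∀ θ, Tst a θ → ∫ t in Ioi a, ((deriv θ t : ℝ) : ℂ) * c t = -∫ t in Ioi a, (θ t : ℂ) * G t) :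
    ∃ k : ℂ, ∀ᵐ t ∂(volume.restrict (Ioi a)), c t = k + Pr a G t := by
  have hP : LocallyIntegrableOn (Pr a G) (Ioi a) :=
    (Pr_continuousOn hG).locallyIntegrableOn measurableSet_Ioi
  obtain ⟨k, hk⟩ := dBR (w := fun t => c t - Pr a G t) (hc.sub hP) (by
    intro θ hθ
    have h1 : ∫ t in Ioi a, ((deriv θ t : ℝ) : ℂ) * (c t - Pr a G t) =
        (∫ t in Ioi a, ((deriv θ t : ℝ) : ℂ) * c t) -
          ∫ t in Ioi a, ((deriv θ t : ℝ) : ℂ) * Pr a G t := by
      rw [← integral_sub (hθ.deriv.integrableOn hc) (hθ.deriv.integrableOn hP)]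
      refine integral_congr_ae (Eventually.of_forall fun t => ?_)
      simp only
      ring
    rw [h1, h θ hθ, parts hG hθ, sub_self])
  refine ⟨k, ?_⟩
  filter_upwards [hk] with t ht
  rw [← ht]
  ring

theorem weak : S_Weak := by
  intro a g c hg ⟨M, hM⟩ hc hweak
  have hh : LocallyIntegrableOn (fun t => (g t : ℂ) * c t) (Ioi a) := by
    intro x hx
    obtain ⟨s, hs, hcs⟩ := hc x hx
    refine ⟨s, hs, ?_⟩
    refine hcs.bdd_mul (c := M) (Complex.measurable_ofReal.comp hg).aestronglyMeasurable
      (Eventually.of_forall fun t => ?_)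
    rw [Complex.norm_real]
    exact hM t
  set h : ℝ → ℂ := fun t => (g t : ℂ) * c t with hhdef
  -- the primitive of `h`
  have hF : LocallyIntegrableOn (Pr a h) (Ioi a) :=
    (Pr_continuousOn hh).locallyIntegrableOn measurableSet_Ioi
  have hstar : ∀ η, Tst a η → ∫ t in Ioi a, ((deriv (deriv η) t : ℝ) : ℂ) * c t =
      -∫ t in Ioi a, ((deriv η t : ℝ) : ℂ) * Pr a h t := by
    intro η hη
    have h1 := hweak η hη.smooth hη.cpt hη.sub
    have h2 : ∫ t in Ioi a, ((deriv (deriv η) t - g t * η t : ℝ) : ℂ) * c t =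
        (∫ t in Ioi a, ((deriv (deriv η) t : ℝ) : ℂ) * c t) - ∫ t in Ioi a, (η t : ℂ) * h t := by
      rw [← integral_sub (hη.deriv.deriv.integrableOn hc) (hη.integrableOn hh)]
      refine integral_congr_ae (Eventually.of_forall fun t => ?_)
      simp only [hhdef]
      push_cast
      ring
    rw [h2] at h1
    rw [parts hh hη, neg_neg]
    exact sub_eq_zero.mp h1
  obtain ⟨ρ, hρ, hρ1⟩ := exists_bump a
  set γ : ℂ := -((∫ t in Ioi a, (ρ t : ℂ) * Pr a h t) +
    ∫ t in Ioi a, ((deriv ρ t : ℝ) : ℂ) * c t) with hγ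
  have hconst : LocallyIntegrableOn (fun _ : ℝ => γ) (Ioi a) :=
    (locallyIntegrable_const γ).locallyIntegrableOn _
  have hGl : LocallyIntegrableOn (fun t => Pr a h t + γ) (Ioi a) := hF.add hconst
  obtain ⟨k, hk⟩ := weak_deriv hc hGl (by
    intro θ hθ
    have hθ1 : Tst a (fun t => θ t - (∫ t, θ t) * ρ t) := hθ.sub' hρ _
    have hint0 : ∫ t, (θ t - (∫ t, θ t) * ρ t) = 0 := by
      rw [integral_sub, integral_const_mul, hρ1, mul_one, sub_self]
      · exact hθ.smooth.continuous.integrable_of_hasCompactSupport hθ.cpt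
      · exact (hρ.smooth.continuous.integrable_of_hasCompactSupport hρ.cpt).const_mul _
    obtain ⟨η, hη, hηd⟩ := prim hθ1 hint0
    have h1 := hstar η hη
    rw [hηd] at h1
    have hdd : deriv (fun t => θ t - (∫ t, θ t) * ρ t) =
        fun t => deriv θ t - (∫ t, θ t) * deriv ρ t := by
      funext t
      have h2 := (hθ.smooth.differentiable (by simp)).differentiableAt (x := t)
      have h3 := (hρ.smooth.differentiable (by simp)).differentiableAt (x := t)
      exact (h2.hasDerivAt.sub (h3.hasDerivAt.const_mul _)).deriv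
    rw [hdd] at h1
    have h4 : ∫ t in Ioi a, ((deriv θ t - (∫ t, θ t) * deriv ρ t : ℝ) : ℂ) * c t =
        (∫ t in Ioi a, ((deriv θ t : ℝ) : ℂ) * c t) -
          ((∫ t, θ t : ℝ) : ℂ) * ∫ t in Ioi a, ((deriv ρ t : ℝ) : ℂ) * c t := by
      rw [← integral_const_mul, ← integral_sub (hθ.deriv.integrableOn hc)
        ((hρ.deriv.integrableOn hc).const_mul _)]
      refine integral_congr_ae (Eventually.of_forall fun t => ?_)
      simp only
      push_cast
      ring
    have h5 : ∫ t in Ioi a, ((θ t - (∫ t, θ t) * ρ t : ℝ) : ℂ) * Pr a h t =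
        (∫ t in Ioi a, (θ t : ℂ) * Pr a h t) -
          ((∫ t, θ t : ℝ) : ℂ) * ∫ t in Ioi a, (ρ t : ℂ) * Pr a h t := by
      rw [← integral_const_mul, ← integral_sub (hθ.integrableOn hF)
        ((hρ.integrableOn hF).const_mul _)]
      refine integral_congr_ae (Eventually.of_forall fun t => ?_)
      simp only
      push_cast
      ring
    have h6 : ∫ t in Ioi a, (θ t : ℂ) * (Pr a h t + γ) =
        (∫ t in Ioi a, (θ t : ℂ) * Pr a h t) + ((∫ t, θ t : ℝ) : ℂ) * γ := by
      rw [← hθ.int_eq, ← integral_mul_const, ← integral_add (hθ.integrableOn hF)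
        (hθ.integrableOn hconst)]
      refine integral_congr_ae (Eventually.of_forall fun t => ?_)
      simp only
      ring
    rw [h4, h5] at h1
    rw [h6, hγ]
    linear_combination h1)
  refine ⟨fun t => k + Pr a (fun t => Pr a h t + γ) t, fun t => Pr a h t + γ, hk, ?_, ?_⟩
  · intro t ht
    have hcont : ContinuousOn (fun t => Pr a h t + γ) (Ioi a) :=
      (Pr_continuousOn hh).add continuousOn_const
    have h1 : HasDerivAt (Pr a (fun t => Pr a h t + γ)) (Pr a h t + γ) t := by
      refine intervalIntegral.integral_hasDerivAt_right (intInt hGl (by linarith) ht) ?_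
        (hcont.continuousAt (Ioi_mem_nhds ht))
      exact hcont.stronglyMeasurableAtFilter isOpen_Ioi t ht
    exact h1.const_add k
  · intro s t hs ht
    have h1 := Pr_sub hh hs ht
    simp only
    rw [h1]
    have h2 : ∫ x in s..t, h x =
        ∫ τ in s..t, (g τ : ℂ) * (k + Pr a (fun t => Pr a h t + γ) τ) := by
      refine intervalIntegral.integral_congr_ae ?_
      rw [ae_restrict_iff' measurableSet_Ioi] at hk
      filter_upwards [hk] with x hx hxs
      have hxa : x ∈ Ioi a := by
        rw [mem_uIoc] at hxs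
        rw [mem_Ioi]
        rcases hxs with h | h <;> linarith [h.1]
      rw [hhdef]
      simp only
      rw [hx hxa]
    rw [← h2]
    ring

end Pool.Agent.W991.CP.Weak
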